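import Pool.Agent.H77.KG.Targets

/-!
# Simplicity of the Chevalley groups (board kgr_modules): row UNQ
-/

set_option autoImplicit false

open Set Pool.Agent.H77.BC Pool.Agent.H77.BD Pool.Agent.H77.KG

namespace Pool.Agent.H11.KGR

private theorem ht_sub_si {l : ℕ} (v : Fin l → ℤ) (i : Fin l) : ht (v - si i) = ht v - 1 := by
  unfold ht
  have h1 : ∑ j, si i j = 1 := by
    unfold si
    rw [Finset.sum_pi_single' i 1 Finset.univ]
    simp
  rw [← h1, ← Finset.sum_sub_distrib]
  rfl

private theorem one_le_ht {l : ℕ} {C : Matrix (Fin l) (Fin l) ℤ} (β : Root C) (h : IsPos β) :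
    1 ≤ ht β.1 := by
  have h0 : β.1 ≠ 0 := root_ne_zero β
  obtain ⟨i, hi⟩ : ∃ i, β.1 i ≠ 0 := by
    by_contra hn
    push Not at hn
    exact h0 (funext hn)
  have h1 : β.1 i ≤ ht β.1 := Finset.single_le_sum (fun j _ => h j) (Finset.mem_univ i)
  have h2 := h i
  omega

private theorem ht_nonpos {l : ℕ} {C : Matrix (Fin l) (Fin l) ℤ} (β : Root C) (h : IsNeg β) :
    ht β.1 ≤ 0 := Finset.sum_nonpos fun j _ => h j

theorem pf_UNQ : T_UNQ := by
  intro l C hC F Γ _ _ _ x τ hx
  have key : ∀ (n : ℕ) (γ : Root C) (t : F), IsPos γ → ht γ.1 ≤ n →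
      x γ t ∈ Ug x (fun δ => IsPos δ ∧ ht γ.1 ≤ ht δ.1 ∧ δ ≠ γ) → t = 0 := by
    intro n
    induction n with
    | zero =>
      intro γ t hγ hn _
      have := one_le_ht γ hγ
      push_cast at hn
      omega
    | succ n ih =>
      intro γ t hγ hn hmem
      by_cases hs : ∃ i, γ.1 = si i
      · obtain ⟨i, hi⟩ := hs
        obtain rfl : γ = sr hC i := Subtype.ext hi
        refine Pool.Agent.H77.BDS.a_UIT hC hx i t ?_
        refine (Subgroup.closure_mono ?_) hmem
        rintro g ⟨β, s, ⟨h1, _, h3⟩, rfl⟩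
        exact ⟨β, s, ⟨h1, fun h => h3 (Subtype.ext h)⟩, rfl⟩
      · push Not at hs
        obtain ⟨i, γ', hip, hγ', hpos'⟩ := (Pool.Agent.H77.BDS.a_POS hC).2 γ hγ hs
        have hht : ht γ'.1 = ht γ.1 - 1 := by
          rw [hγ', ht_sub_si]
        have hht1 := one_le_ht γ' hpos'
        have hconj : ∀ δ : Root C, ip C δ.1 (si i) = 1 → ∀ (δ' : Root C), δ'.1 = δ.1 - si i →
            ∀ s, x (ng (sr hC i)) 1 * x δ s * (x (ng (sr hC i)) 1)⁻¹ =
              x δ' ((eps C (-si i) δ.1 : F) * 1 * s) * x δ s := by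
          intro δ hδ δ' hδ' s
          have h1 := hx.com (ng (sr hC i)) δ δ' (by
            rw [hδ', ng_val, sr_val]
            abel) 1 s
          rw [h1, ng_val, sr_val]
          group
        have hsub : ∀ δ : Root C, IsPos δ → ht γ.1 ≤ ht δ.1 → ∀ s, x δ s ∈
            Ug x (fun δ => IsPos δ ∧ ht γ'.1 ≤ ht δ.1 ∧ δ ≠ γ') := by
          intro δ h1 h2 s
          refine Subgroup.subset_closure ⟨δ, s, ⟨h1, by omega, ?_⟩, rfl⟩
          rintro rfl
          omega
        have hle : Ug x (fun δ => IsPos δ ∧ ht γ.1 ≤ ht δ.1 ∧ δ ≠ γ) ≤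
            (Ug x (fun δ => IsPos δ ∧ ht γ'.1 ≤ ht δ.1 ∧ δ ≠ γ')).comap
              (MulAut.conj (x (ng (sr hC i)) 1)).toMonoidHom := by
          refine (Subgroup.closure_le _).2 ?_
          rintro g ⟨δ, s, ⟨h1, h2, h3⟩, rfl⟩
          change x (ng (sr hC i)) 1 * x δ s * (x (ng (sr hC i)) 1)⁻¹ ∈ Ug x _
          rcases lt_trichotomy (ip C δ.1 (si i)) 1 with h4 | h4 | h4
          · have h5 : x (ng (sr hC i)) 1 * x δ s = x δ s * x (ng (sr hC i)) 1 := by
              refine hx.cmm _ _ ?_ 1 s
              rw [ng_val, sr_val, ip_neg_left, ip_comm hC]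
              omega
            rw [h5, mul_inv_cancel_right]
            exact hsub δ h1 h2 s
          · have h5 : ip C δ.1 (sr hC i).1 = 1 := h4
            rw [hconj δ h4 (Pool.Agent.H77.BD.sb hC δ (sr hC i) h5) rfl s]
            refine Subgroup.mul_mem _ ?_ (hsub δ h1 h2 s)
            have h6 : ht (Pool.Agent.H77.BD.sb hC δ (sr hC i) h5).1 = ht δ.1 - 1 := by
              rw [sb_val, sr_val, ht_sub_si]
            refine Subgroup.subset_closure ⟨_, _, ⟨?_, ?_, ?_⟩, rfl⟩
            · rcases (Pool.Agent.H77.BDS.a_POS hC).1 (Pool.Agent.H77.BD.sb hC δ (sr hC i) h5)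
                with h7 | h7
              · exact h7
              · have := ht_nonpos _ h7
                omega
            · omega
            · intro h7
              apply h3
              have h8 := congrArg Subtype.val h7
              rw [sb_val, sr_val, hγ'] at h8
              exact Subtype.ext (sub_left_injective h8)
          · exfalso
            have h5 := ip_le_two hC δ (sr hC i)
            rw [sr_val] at h5
            have h6 : ip C δ.1 (sr hC i).1 = 2 := by
              rw [sr_val]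
              omega
            have h7 := ip_eq_two hC δ (sr hC i) h6
            have h8 : ht δ.1 = 1 := by
              rw [h7, sr_val]
              unfold ht si
              rw [Finset.sum_pi_single' i 1 Finset.univ]
              simp
            omega
        have h1 : x (ng (sr hC i)) 1 * x γ t * (x (ng (sr hC i)) 1)⁻¹ ∈
            Ug x (fun δ => IsPos δ ∧ ht γ'.1 ≤ ht δ.1 ∧ δ ≠ γ') := hle hmem
        rw [hconj γ hip γ' hγ' t] at h1
        have h2 := (Subgroup.mul_mem_cancel_right _ (hsub γ hγ le_rfl t)).1 h1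
        have h3 := ih γ' _ hpos' (by push_cast at hn; omega) h2
        rw [mul_one] at h3
        exact (mul_eq_zero.1 h3).resolve_left (eps_ne_zero_F _ _)
  intro γ t hγ hmem
  refine key (ht γ.1).toNat γ t hγ ?_ hmem
  have := one_le_ht γ hγ
  omega

end Pool.Agent.H11.KGR
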